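import Pool.Agent.Helper937.FuC2
import Pool.Agent.Helper937.ForceCH

/-!
# Compact continuous images of `C_p(K)` for Fréchet–Urysohn compacta: a consistent answer

Under Luzin's axiom `2^ℵ₀ < 2^ℵ₁` the answer to the question is positive for every
Fréchet–Urysohn compact space, with no bound on its size; and the continuum hypothesis, which
implies Luzin's axiom, is forced by some notion of forcing.
-/

set_option autoImplicit false

namespace Pool.Agent.Results.MP_28859b_gt.ConsistentlyYes

open Cardinal
open Pool.Agent.Helper937.ForceCH (OmegaOnePreserved CHHolds)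

/-- The positive answer to Q1 (the proposition of the frozen statement `S08207`). -/
def PositiveQ1 : Prop :=
  ∀ (K : Type) [TopologicalSpace K] [CompactSpace K] [T2Space K] [FrechetUrysohnSpace K]
      (Y : Type) [TopologicalSpace Y] [CompactSpace Y] [T2Space Y]
      (f : {g : K → ℝ // Continuous g} → Y),
      Continuous f → Function.Surjective f → TopologicalSpace.MetrizableSpace Y

theorem positive_of_luzin (h : (2 : Cardinal.{0}) ^ (ℵ₀ : Cardinal.{0}) < 2 ^ ℵ₁) :
    PositiveQ1 := by
  intro K _ _ _ _ Y _ _ _ f hf hs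
  exact Pool.Agent.Helper937.Dya.main_FU h K Y f hf hs

theorem luzin_of_ch (h : (2 : Cardinal.{0}) ^ (ℵ₀ : Cardinal.{0}) = ℵ₁) :
    (2 : Cardinal.{0}) ^ (ℵ₀ : Cardinal.{0}) < 2 ^ ℵ₁ := by
  rw [h]
  exact Cardinal.cantor _

/-- **Main theorem** (no hypothesis). (1) Some notion of forcing forces that `ω₁` is preserved and
that CH holds. (2) CH implies the positive answer, and so does Luzin's axiom. (3) In ZFC: if a
compact image `Y` of `C_p(K)`, `K` compact, is not metrizable, then for some `A ⊆ K` of size at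
most `ℵ₁` the continuous functions on `K` have at least `2^ℵ₁` different restrictions to `A`. -/
theorem result :
    (∃ (P : Type) (_ : Preorder P), Nonempty P ∧
      ∀ p : P, p ∈ OmegaOnePreserved P ∧ p ∈ CHHolds P) ∧
    ((2 : Cardinal.{0}) ^ (ℵ₀ : Cardinal.{0}) = ℵ₁ → PositiveQ1) ∧
    ((2 : Cardinal.{0}) ^ (ℵ₀ : Cardinal.{0}) < 2 ^ ℵ₁ → PositiveQ1) ∧
    (∀ (K : Type) [TopologicalSpace K] [CompactSpace K] [T2Space K]
      (Y : Type) [TopologicalSpace Y] [CompactSpace Y] [T2Space Y]
      (f : {g : K → ℝ // Continuous g} → Y),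
      Continuous f → Function.Surjective f → ¬ TopologicalSpace.MetrizableSpace Y →
      ∃ A : Set K, #A ≤ ℵ₁ ∧
        2 ^ ℵ₁ ≤ #(Set.range fun g : {g : K → ℝ // Continuous g} => fun a : A => g.1 a)) := by
  refine ⟨?_, fun h => positive_of_luzin (luzin_of_ch h), positive_of_luzin, ?_⟩
  · obtain ⟨P, hP, hne, h⟩ := Pool.Agent.Helper937.ForceCH.exists_forcing
    exact ⟨P, hP, hne, fun p => ⟨(h p).1, (h p).2.2⟩⟩
  · intro K _ _ _ Y _ _ _ f hf hs hY
    by_contra hcon
    push Not at hcon
    exact hY (Pool.Agent.Helper937.Dya.main_small K (fun A hA => hcon A hA) Y f hf hs)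

end Pool.Agent.Results.MP_28859b_gt.ConsistentlyYes
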