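import Mathlib
import Pool.Agent.Helper937.Dya9

set_option autoImplicit false

open Set Topology

namespace Pool.Agent.Results.MP_28859b_gt.LocallyCountableOff

/-- Compact continuous images of `C_p(K)` are metrizable for every compact space `K` such that
for each `A ⊆ K` of size at most `ℵ₁` there is a closed set `F` of weight at most `ℵ₁` off which
`A` is locally countable. -/
theorem result (K : Type) [TopologicalSpace K] [CompactSpace K] [T2Space K]
    (hK : ∀ A : Set K, Cardinal.mk A ≤ Cardinal.aleph 1 → ∃ F : Set K, IsClosed F ∧
      (∃ B : Set (Set F), TopologicalSpace.IsTopologicalBasis B ∧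
        Cardinal.mk B ≤ Cardinal.aleph 1) ∧
      ∀ x ∈ closure A, x ∉ F → ∃ U ∈ 𝓝 x, (U ∩ A).Countable)
    (Y : Type) [TopologicalSpace Y] [CompactSpace Y] [T2Space Y]
    (f : {g : K → ℝ // Continuous g} → Y) (hf : Continuous f) (hs : Function.Surjective f) :
    TopologicalSpace.MetrizableSpace Y :=
  Pool.Agent.Helper937.Dya.main_general K hK Y f hf hs

end Pool.Agent.Results.MP_28859b_gt.LocallyCountableOff
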